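import Mathlib

/-!
# Approximate repeated squaring
-/

set_option maxHeartbeats 400000

namespace Pool.Agent.TH662.SN

/-- If the errors in a chain `8 e₀ = 1`, `e_j ^ 2 = e_{j+1}` of repeated squaring are at most a
quarter of the last number then the last number is doubly exponentially small. -/
theorem chain_small {e : ℕ → ℝ} {K : ℕ} (h1 : |e K| ≤ 1) (h0 : |8 * e 0 - 1| ≤ |e K| / 4)
    (hs : ∀ j < K, |e j * e j - e (j + 1)| ≤ |e K| / 4) :
    |e K| ≤ (1 / 2) ^ 2 ^ K := by
  set U := |e K| with hU
  have hU0 : 0 ≤ U := abs_nonneg _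
  -- the squares are not small
  have c1 : ∀ j < K, U / 4 ≤ e j * e j := by
    intro j hj
    by_contra hcon
    push Not at hcon
    have key : ∀ i, j + 1 ≤ i → i ≤ K → |e i| < U / 2 := by
      intro i hi
      induction i, hi using Nat.le_induction with
      | base =>
        intro _
        have := hs j hj
        have h2 : |e (j + 1)| ≤ |e j * e j| + |e j * e j - e (j + 1)| := by
          have h3 : e (j + 1) = e j * e j - (e j * e j - e (j + 1)) := by ring
          calc |e (j + 1)| = |e j * e j - (e j * e j - e (j + 1))| := by rw [← h3]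
            _ ≤ _ := abs_sub _ _
        rw [abs_of_nonneg (mul_self_nonneg (e j))] at h2
        linarith
      | succ i hi ih =>
        intro hiK
        have h4 := ih (by omega)
        have h5 := hs i (by omega)
        have h2 : |e (i + 1)| ≤ |e i * e i| + |e i * e i - e (i + 1)| := by
          have h3 : e (i + 1) = e i * e i - (e i * e i - e (i + 1)) := by ring
          calc |e (i + 1)| = |e i * e i - (e i * e i - e (i + 1))| := by rw [← h3]
            _ ≤ _ := abs_sub _ _
        rw [abs_mul] at h2
        have h6 : |e i| * |e i| < U / 2 * (1 / 2) := by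
          have h7 : |e i| ≤ 1 / 2 := by linarith
          have h8 := abs_nonneg (e i)
          rcases eq_or_lt_of_le h8 with h9 | h9
          · rw [← h9]
            have : 0 < U / 2 := lt_of_le_of_lt h8 h4
            linarith
          · nlinarith
        linarith
    have := key K (by omega) le_rfl
    linarith
  -- doubling
  have c2 : ∀ j < K, |e (j + 1)| ≤ 2 * (|e j| * |e j|) := by
    intro j hj
    have h2 := c1 j hj
    have h3 := hs j hj
    have h4 : |e (j + 1)| ≤ |e j * e j| + |e j * e j - e (j + 1)| := by
      have h3 : e (j + 1) = e j * e j - (e j * e j - e (j + 1)) := by ring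
      calc |e (j + 1)| = |e j * e j - (e j * e j - e (j + 1))| := by rw [← h3]
        _ ≤ _ := abs_sub _ _
    rw [abs_of_nonneg (mul_self_nonneg (e j))] at h4
    rw [abs_mul_abs_self]
    linarith
  have c3 : ∀ j ≤ K, 2 * |e j| ≤ (1 / 2) ^ 2 ^ j := by
    intro j
    induction j with
    | zero =>
      intro _
      have h5 : 8 * |e 0| ≤ 1 + |8 * e 0 - 1| := by
        have h6 : (8 : ℝ) * |e 0| = |8 * e 0| := by rw [abs_mul]; norm_num
        rw [h6]
        have h7 : 8 * e 0 = 1 + (8 * e 0 - 1) := by ring
        calc |8 * e 0| = |1 + (8 * e 0 - 1)| := by rw [← h7]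
          _ ≤ |1| + |8 * e 0 - 1| := abs_add_le _ _
          _ = _ := by norm_num
      norm_num
      linarith
    | succ j ih =>
      intro hj
      have h5 := ih (by omega)
      have h6 := c2 j (by omega)
      have h7 : (2 * |e j|) * (2 * |e j|) ≤ (1 / 2) ^ 2 ^ j * (1 / 2) ^ 2 ^ j :=
        mul_le_mul h5 h5 (by positivity) (by positivity)
      have h8 : ((1 : ℝ) / 2) ^ 2 ^ j * (1 / 2) ^ 2 ^ j = (1 / 2) ^ 2 ^ (j + 1) := by
        rw [← pow_add]
        congr 1
        ring
      rw [h8] at h7
      linarith
  have h9 := c3 K le_rfl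
  linarith

end Pool.Agent.TH662.SN
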