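import Pool.Agent.H78R3.TSV.Defs

/-!
# The spectral norm of a tensor: the decision problems
-/

namespace Pool.Agent.TH662.SN

open Pool.Agent.H78R3.TSV

/-- `T(x, y, z) = ∑ t_{ijk} x_i y_j z_k`. -/
noncomputable def tri {d : ℕ} (t : Fin d → Fin d → Fin d → ℝ)
    (x y z : EuclideanSpace ℝ (Fin d)) : ℝ :=
  ∑ i, ∑ j, ∑ k, t i j k * x i * y j * z k

/-- The spectral norm: the maximum (supremum) of `|T(x, y, z)|` over all unit vectors
`x`, `y`, `z`. -/
noncomputable def spectralNorm {d : ℕ} (t : Fin d → Fin d → Fin d → ℝ) : ℝ :=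
  sSup {r : ℝ | ∃ x y z : EuclideanSpace ℝ (Fin d), ‖x‖ = 1 ∧ ‖y‖ = 1 ∧ ‖z‖ = 1 ∧
    r = |tri t x y z|}

/-- The `d × d × d` array of real numbers given by a nested list of rational numbers. -/
noncomputable def tensorOf (t : List (List (List ℚ))) :
    Fin t.length → Fin t.length → Fin t.length → ℝ :=
  fun i j k => ((entry t i j k : ℚ) : ℝ)

/-- **SPECTRAL-NORM-BOUND**: the input is a `d × d × d` tensor with rational entries (a nested
list; `d` is its length) and a positive rational number `σ`; the question is whether the spectral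
norm is at most `σ`. -/
def SpectralNormBound (q : List (List (List ℚ)) × ℚ) : Prop :=
  IsCube q.1 ∧ 0 < q.2 ∧ spectralNorm (tensorOf q.1) ≤ (q.2 : ℝ)

/-- **SPECTRAL-NORM-EXCEED**: on the same input, is the spectral norm larger than `σ`? -/
def SpectralNormExceed (q : List (List (List ℚ)) × ℚ) : Prop :=
  IsCube q.1 ∧ 0 < q.2 ∧ (q.2 : ℝ) < spectralNorm (tensorOf q.1)

end Pool.Agent.TH662.SN
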