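import Pool.Agent.TH662.SN.Sys

/-!
# The tensor of the system, and its spectral norm
-/

set_option maxHeartbeats 400000

namespace Pool.Agent.TH662.SN

open Finset Pool.Agent.NPC Pool.Agent.NPC.ER Pool.Agent.H78R3.TSV

/-- Eighteen copies of each constraint. -/
def rep (G : List QC) : List QC := G.flatMap fun g => List.replicate 18 g

theorem rep_length (G : List QC) : (rep G).length = 18 * G.length := by
  unfold rep
  induction G with
  | nil => rfl
  | cons g G ih =>
    rw [List.flatMap_cons, List.length_append, ih, List.length_replicate, List.length_cons]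
    ring

theorem mem_rep {G : List QC} {g : QC} (h : g ∈ rep G) : g ∈ G := by
  unfold rep at h
  rw [List.mem_flatMap] at h
  obtain ⟨a, ha, h⟩ := h
  rw [(List.mem_replicate.1 h).2]
  exact ha

theorem rep_sum (G : List QC) (φ : QC → ℝ) : ((rep G).map φ).sum = 18 * (G.map φ).sum := by
  unfold rep
  induction G with
  | nil => simp
  | cons g G ih =>
    rw [List.flatMap_cons, List.map_append, List.sum_append, ih, List.map_replicate,
      List.sum_replicate, List.map_cons, List.sum_cons]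
    simp
    ring

/-- The forms of the tensor. -/
def formsU (n : ℕ) (G : List QC) (u : ℕ) : List (List QT) :=
  forms n (rep G) ++ [[((1 : ℤ), u, 0)]]

theorem fok_formsU {n : ℕ} {G : List QC} (hG : ∀ g ∈ G, GOk n g) {u : ℕ} (hu : u < n)
    (hn : 0 < n) : ∀ f ∈ formsU n G u, FOk n f := by
  intro f hf
  unfold formsU at hf
  rw [List.mem_append, List.mem_singleton] at hf
  rcases hf with hf | rfl
  · exact fok_forms (fun g hg => hG g (mem_rep hg)) f hf
  · intro t ht
    rw [List.mem_singleton] at ht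
    subst ht
    exact ⟨hu, hn⟩

/-- The sum of the squares of the forms. -/
theorem S_formsU {n : ℕ} {G : List QC} (hG : ∀ g ∈ G, GOk n g) (u : ℕ) (x y : ℕ → ℝ) :
    S x y x y (formsU n G u) = 1152 * (18 * (G.length : ℝ)) ^ 2 *
        ((∑ i ∈ range n, x i ^ 2) * (∑ i ∈ range n, y i ^ 2) + (∑ i ∈ range n, x i * y i) ^ 2) -
      324 * (G.length : ℝ) * (G.map fun g => gev x y g * gev x y g).sum +
      bev x y (u, 0) ^ 2 := by
  unfold formsU
  rw [S_append, S_forms x y x y n (rep G) (fun g hg => hG g (mem_rep hg)), sum_bev, rep_length,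
    rep_sum]
  have h1 : ∑ i ∈ range n, x i * x i = ∑ i ∈ range n, x i ^ 2 :=
    Finset.sum_congr rfl fun i _ => (sq _).symm
  have h2 : ∑ i ∈ range n, y i * y i = ∑ i ∈ range n, y i ^ 2 :=
    Finset.sum_congr rfl fun i _ => (sq _).symm
  have h3 : ∑ i ∈ range n, y i * x i = ∑ i ∈ range n, x i * y i :=
    Finset.sum_congr rfl fun i _ => mul_comm _ _
  rw [h1, h2, h3]
  simp only [S_cons, S_nil, fev_cons, fev_nil, tev]
  push_cast
  ring

theorem single_le_sum_list {l : List ℝ} (h : ∀ a ∈ l, 0 ≤ a) {a : ℝ} (ha : a ∈ l) :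
    a ≤ l.sum := by
  induction l with
  | nil => simp at ha
  | cons b l ih =>
    rw [List.sum_cons]
    have h1 := h b List.mem_cons_self
    have h2 := List.sum_nonneg (fun a ha => h a (List.mem_cons_of_mem _ ha))
    rcases List.mem_cons.1 ha with rfl | ha
    · linarith
    · have := ih (fun a ha => h a (List.mem_cons_of_mem _ ha)) ha
      linarith

/-- If the sum of the squares is large then there is an approximate solution. -/
theorem approx_of_big {n : ℕ} {G : List QC} (hG : ∀ g ∈ G, GOk n g) (hne : G ≠ []) {u : ℕ}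
    (hu : u < n) {x y : ℕ → ℝ} (hx1 : ∑ i ∈ range n, x i ^ 2 ≤ 1)
    (hy1 : ∑ i ∈ range n, y i ^ 2 ≤ 1)
    (hbig : (48 * (18 * (G.length : ℝ))) ^ 2 < S x y x y (formsU n G u)) :
    0 < ∑ i ∈ range n, x i ^ 2 ∧ ∀ g ∈ G, |gev x x g| ≤ |x u| * |x 0| / 2 := by
  have hn : 0 < n := by omega
  rw [S_formsU hG] at hbig
  have hlen : (1 : ℝ) ≤ G.length := by
    have : 0 < G.length := List.length_pos_iff.2 hne
    exact_mod_cast this
  set l : ℝ := (G.length : ℝ) with hl
  set a := ∑ i ∈ range n, x i ^ 2 with ha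
  set b := ∑ i ∈ range n, y i ^ 2 with hb
  set c := ∑ i ∈ range n, x i * y i with hc
  set h := bev x y (u, 0) with hh
  set Q := (G.map fun g => gev x y g * gev x y g).sum with hQ
  have ha0 : 0 ≤ a := Finset.sum_nonneg (fun _ _ => sq_nonneg _)
  have hb0 : 0 ≤ b := Finset.sum_nonneg (fun _ _ => sq_nonneg _)
  have hcs : c ^ 2 ≤ a * b := Finset.sum_mul_sq_le_sq_mul_sq (range n) x y
  have hab : a * b ≤ 1 := by nlinarith
  have hc1 : c ^ 2 ≤ 1 := hcs.trans hab
  have hg0 : ∀ r ∈ G.map (fun g => gev x y g * gev x y g), 0 ≤ r := by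
    intro r hr
    obtain ⟨g, _, rfl⟩ := List.mem_map.1 hr
    exact mul_self_nonneg _
  have hQ0 : 0 ≤ Q := List.sum_nonneg hg0
  have hxi : ∀ i < n, |x i| ≤ 1 := by
    intro i hi
    have h1 : x i ^ 2 ≤ a := Finset.single_le_sum (f := fun i => x i ^ 2)
      (fun _ _ => sq_nonneg _) (Finset.mem_range.2 hi)
    rw [← sq_abs] at h1
    nlinarith [abs_nonneg (x i)]
  have hyi : ∀ i < n, |y i| ≤ 1 := by
    intro i hi
    have h1 : y i ^ 2 ≤ b := Finset.single_le_sum (f := fun i => y i ^ 2)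
      (fun _ _ => sq_nonneg _) (Finset.mem_range.2 hi)
    rw [← sq_abs] at h1
    nlinarith [abs_nonneg (y i)]
  -- the basic inequality
  have hlQ : 0 ≤ l * Q := mul_nonneg (by linarith) hQ0
  have hbasic : 1152 * (18 * l) ^ 2 * ((1 - a * b) + (1 - c ^ 2)) + 324 * (l * Q) < h ^ 2 := by
    nlinarith
  have hl2 : (1 : ℝ) ≤ l ^ 2 := by nlinarith
  have hE0 : 0 ≤ (1 - a * b) + (1 - c ^ 2) := by linarith
  have hE : 1152 * 324 * ((1 - a * b) + (1 - c ^ 2)) ≤ h ^ 2 := by
    have h1 : 1152 * 324 * ((1 - a * b) + (1 - c ^ 2)) * 1 ≤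
        1152 * 324 * ((1 - a * b) + (1 - c ^ 2)) * l ^ 2 :=
      mul_le_mul_of_nonneg_left hl2 (by positivity)
    nlinarith
  have hh2 : |h| ≤ 2 := by
    rw [hh]
    unfold bev
    simp only
    calc |x u * y 0 + x 0 * y u| ≤ |x u * y 0| + |x 0 * y u| := abs_add_le _ _
      _ = |x u| * |y 0| + |x 0| * |y u| := by rw [abs_mul, abs_mul]
      _ ≤ 1 * 1 + 1 * 1 := by
        have := hxi u hu; have := hxi 0 hn; have := hyi u hu; have := hyi 0 hn
        gcongr
      _ = 2 := by norm_num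
  have hh4 : h ^ 2 ≤ 4 := by
    rw [← sq_abs]
    nlinarith [abs_nonneg h]
  have hapos : 0 < a := by
    by_contra hcon
    have : a = 0 := by linarith
    rw [this] at hE
    nlinarith
  refine ⟨hapos, ?_⟩
  -- the vectors are nearly parallel
  obtain ⟨s, hs1, hsc⟩ : ∃ s : ℝ, s * s = 1 ∧ s * c = |c| := by
    rcases le_total 0 c with h0 | h0
    · exact ⟨1, by norm_num, by rw [abs_of_nonneg h0]; ring⟩
    · exact ⟨-1, by norm_num, by rw [abs_of_nonpos h0]; ring⟩
  have hs : |s| = 1 := by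
    have h1 : |s| * |s| = 1 := by rw [abs_mul_abs_self]; exact hs1
    nlinarith [abs_nonneg s]
  have hcabs : |c| ≤ 1 := by
    rw [← sq_abs] at hc1
    nlinarith [abs_nonneg c]
  have hd : ∑ i ∈ range n, (x i - s * y i) ^ 2 ≤ 2 * (1 - c ^ 2) := by
    have h1 : ∑ i ∈ range n, (x i - s * y i) ^ 2 = a + b - 2 * (s * c) := by
      have : ∀ i, (x i - s * y i) ^ 2 = x i ^ 2 + (s * s) * y i ^ 2 - 2 * s * (x i * y i) := by
        intro i; ring
      simp_rw [this, hs1, one_mul, Finset.sum_sub_distrib, Finset.sum_add_distrib,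
        ← Finset.mul_sum]
      ring
    rw [h1, hsc]
    have h2 : c ^ 2 ≤ |c| := by
      rw [← sq_abs]
      nlinarith [abs_nonneg c]
    linarith
  have hdi : ∀ i < n, |x i - s * y i| ≤ |h| / 432 := by
    intro i hi
    have h1 : (x i - s * y i) ^ 2 ≤ 2 * (1 - c ^ 2) :=
      (Finset.single_le_sum (f := fun i => (x i - s * y i) ^ 2) (fun _ _ => sq_nonneg _)
        (Finset.mem_range.2 hi)).trans hd
    have h2 : (x i - s * y i) ^ 2 ≤ (|h| / 432) ^ 2 := by
      rw [div_pow, sq_abs]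
      nlinarith
    exact abs_le_of_sq_le_sq (by linarith) (by positivity)
  have hbv : ∀ p : ℕ × ℕ, p.1 < n → p.2 < n → |bev x x p - s * bev x y p| ≤ |h| / 216 := by
    intro p h1 h2
    have h3 : bev x x p - s * bev x y p =
        x p.1 * (x p.2 - s * y p.2) + x p.2 * (x p.1 - s * y p.1) := by
      unfold bev; ring
    rw [h3]
    calc _ ≤ |x p.1 * (x p.2 - s * y p.2)| + |x p.2 * (x p.1 - s * y p.1)| := abs_add_le _ _
      _ = |x p.1| * |x p.2 - s * y p.2| + |x p.2| * |x p.1 - s * y p.1| := by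
        rw [abs_mul, abs_mul]
      _ ≤ 1 * (|h| / 432) + 1 * (|h| / 432) := by
        have := hxi _ h1; have := hxi _ h2; have := hdi _ h1; have := hdi _ h2
        gcongr
      _ = _ := by ring
  -- the last form
  have hh3 : |h| ≤ 3 * (|x u| * |x 0|) := by
    have h1 := hbv (u, 0) hu hn
    have h2 : bev x x (u, 0) = 2 * (x u * x 0) := by unfold bev; ring
    rw [h2, ← hh] at h1
    have h3 : |s * h| = |h| := by rw [abs_mul, hs, one_mul]
    have h4 : |s * h| ≤ |2 * (x u * x 0)| + |2 * (x u * x 0) - s * h| := by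
      have h5 : s * h = 2 * (x u * x 0) - (2 * (x u * x 0) - s * h) := by ring
      calc |s * h| = |2 * (x u * x 0) - (2 * (x u * x 0) - s * h)| := by rw [← h5]
        _ ≤ _ := abs_sub _ _
    rw [h3, abs_mul, abs_mul] at h4
    norm_num at h4
    nlinarith [abs_nonneg h, mul_nonneg (abs_nonneg (x u)) (abs_nonneg (x 0))]
  intro g hgm
  have hgy : |gev x y g| ≤ |h| / 18 := by
    have h1 : gev x y g * gev x y g ≤ Q := single_le_sum_list hg0 (List.mem_map.2 ⟨g, hgm, rfl⟩)
    have h2 : Q ≤ l * Q := by nlinarith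
    have h3 : 0 ≤ 1152 * (18 * l) ^ 2 * ((1 - a * b) + (1 - c ^ 2)) := by positivity
    have h4 : (gev x y g) ^ 2 ≤ (|h| / 18) ^ 2 := by
      rw [div_pow, sq_abs]
      nlinarith
    exact abs_le_of_sq_le_sq (by linarith) (by positivity)
  have hte : ∀ t : QT, TOk n t → |tev x x t - s * tev x y t| ≤ 8 * (|h| / 216) := by
    rintro t ⟨h1, h2, h3⟩
    have h4 : tev x x t - s * tev x y t = (t.1 : ℝ) * (bev x x t.2 - s * bev x y t.2) := by
      unfold tev; ring
    rw [h4, abs_mul]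
    have h5 : |(t.1 : ℝ)| ≤ 8 := by
      have h6 : ((t.1.natAbs : ℕ) : ℝ) ≤ 8 := by exact_mod_cast h1
      rw [Nat.cast_natAbs] at h6
      push_cast at h6
      exact h6
    exact mul_le_mul h5 (hbv _ h2 h3) (abs_nonneg _) (by norm_num)
  obtain ⟨g1, g2, g3⟩ := hG g hgm
  have h5 : |gev x x g - s * gev x y g| ≤ 24 * (|h| / 216) := by
    have h6 : gev x x g - s * gev x y g = (tev x x g.1 - s * tev x y g.1) +
        (tev x x g.2.1 - s * tev x y g.2.1) + (tev x x g.2.2 - s * tev x y g.2.2) := by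
      unfold gev; ring
    rw [h6]
    have e1 := hte _ g1
    have e2 := hte _ g2
    have e3 := hte _ g3
    calc _ ≤ |(tev x x g.1 - s * tev x y g.1) + (tev x x g.2.1 - s * tev x y g.2.1)| +
          |tev x x g.2.2 - s * tev x y g.2.2| := abs_add_le _ _
      _ ≤ |tev x x g.1 - s * tev x y g.1| + |tev x x g.2.1 - s * tev x y g.2.1| +
          |tev x x g.2.2 - s * tev x y g.2.2| := by
        have := abs_add_le (tev x x g.1 - s * tev x y g.1) (tev x x g.2.1 - s * tev x y g.2.1)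
        linarith
      _ ≤ _ := by linarith
  have h7 : |gev x x g| ≤ |s * gev x y g| + |gev x x g - s * gev x y g| := by
    have h8 : gev x x g = s * gev x y g + (gev x x g - s * gev x y g) := by ring
    calc |gev x x g| = |s * gev x y g + (gev x x g - s * gev x y g)| := by rw [← h8]
      _ ≤ _ := abs_add_le _ _
  rw [abs_mul, hs, one_mul] at h7
  linarith

/-- An exact solution makes the sum of the squares large. -/
theorem big_of_sol {n d : ℕ} {G : List QC} (hG : ∀ g ∈ G, GOk n g) {u : ℕ} (hnd : n ≤ d)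
    (hu : u < n) {x₀ : ℕ → ℝ} (h0 : x₀ 0 ≠ 0) (h1 : x₀ u ≠ 0) (hg : ∀ g ∈ G, gev x₀ x₀ g = 0) :
    ∃ x y : ℕ → ℝ, ∑ i ∈ range d, x i ^ 2 = 1 ∧ ∑ i ∈ range d, y i ^ 2 = 1 ∧
      (48 * (18 * (G.length : ℝ))) ^ 2 < S x y x y (formsU n G u) := by
  have hn : 0 < n := by omega
  set a := ∑ i ∈ range n, x₀ i ^ 2 with ha
  have ha0 : 0 < a := by
    have h2 : x₀ 0 ^ 2 ≤ a := Finset.single_le_sum (f := fun i => x₀ i ^ 2)
      (fun _ _ => sq_nonneg _) (Finset.mem_range.2 hn)
    have h3 : 0 < x₀ 0 ^ 2 := by positivity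
    linarith
  set s := Real.sqrt a with hs
  have hs2 : s ^ 2 = a := Real.sq_sqrt ha0.le
  have hs0 : 0 < s := Real.sqrt_pos.2 ha0
  let x : ℕ → ℝ := fun i => if i < n then x₀ i / s else 0
  have hxn : ∀ i < n, x i = x₀ i / s := fun i hi => by simp [x, hi]
  have hxo : ∀ i, n ≤ i → x i = 0 := fun i hi => by simp [x, not_lt.2 hi]
  have hx : ∑ i ∈ range n, x i ^ 2 = 1 := by
    have h2 : ∑ i ∈ range n, x i ^ 2 = ∑ i ∈ range n, x₀ i ^ 2 / a :=
      Finset.sum_congr rfl (fun i hi => by rw [hxn i (Finset.mem_range.1 hi), div_pow, hs2])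
    rw [h2, ← Finset.sum_div, ← ha, div_self ha0.ne']
  have hxd : ∑ i ∈ range d, x i ^ 2 = 1 := by
    rw [← hx]
    symm
    apply Finset.sum_subset (Finset.range_subset_range.2 hnd)
    intro i _ hi
    rw [hxo i (not_lt.1 (fun h => hi (Finset.mem_range.2 h)))]
    ring
  refine ⟨x, x, hxd, hxd, ?_⟩
  rw [S_formsU hG]
  have h2 : (G.map fun g => gev x x g * gev x x g).sum = 0 := by
    apply List.sum_eq_zero
    intro r hr
    obtain ⟨g, hg', rfl⟩ := List.mem_map.1 hr
    have h3 : gev x x g = gev x₀ x₀ g / (s * s) := by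
      obtain ⟨⟨a1, a2, a3⟩, ⟨b1, b2, b3⟩, ⟨c1, c2, c3⟩⟩ := hG g hg'
      unfold gev tev bev
      rw [hxn _ a2, hxn _ a3, hxn _ b2, hxn _ b3, hxn _ c2, hxn _ c3]
      field_simp
    rw [h3, hg g hg']
    simp
  have h4 : ∑ i ∈ range n, x i * x i = 1 := by
    rw [← hx]; exact Finset.sum_congr rfl fun i _ => (sq _).symm
  have h5 : bev x x (u, 0) ^ 2 = (2 * (x₀ u / s * (x₀ 0 / s))) ^ 2 := by
    unfold bev
    rw [hxn u hu, hxn 0 hn]
    ring
  have h6 : 0 < (2 * (x₀ u / s * (x₀ 0 / s))) ^ 2 := by positivity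
  rw [h2, hx, h4, h5]
  linarith

/-! ### The instance -/

/-- The dimension of the tensor. -/
def dimU (S : List ER.Con) : ℕ :=
  hn (gsys S) + (formsU (hn (gsys S)) (hsysU (gsys S)) (uix S)).length

/-- The instance of a system. -/
def instU (S : List ER.Con) : List (List (List ℚ)) × ℚ :=
  (tenL (dimU S) (formsU (hn (gsys S)) (hsysU (gsys S)) (uix S)),
    (((48 * (18 * (hsysU (gsys S)).length) : ℕ) : ℤ) : ℚ))

theorem hsysU_ne_nil {T : List ER.Con} (hT : T ≠ []) : hsysU T ≠ [] := by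
  cases T with
  | nil => exact absurd rfl hT
  | cons c T => simp [hsysU]

theorem gsys_ne_nil (S : List ER.Con) : gsys S ≠ [] := by simp [gsys]

theorem isBig_congr {d : ℕ} {t t' : ℕ → ℕ → ℕ → ℝ} {σ : ℝ}
    (h : ∀ i < d, ∀ j < d, ∀ k < d, t i j k = t' i j k) : IsBig d t σ ↔ IsBig d t' σ := by
  unfold IsBig
  have key : ∀ x y z : ℕ → ℝ,
      ∑ i ∈ range d, ∑ j ∈ range d, ∑ k ∈ range d, t i j k * x i * y j * z k =
      ∑ i ∈ range d, ∑ j ∈ range d, ∑ k ∈ range d, t' i j k * x i * y j * z k := by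
    intro x y z
    exact Finset.sum_congr rfl fun i hi => Finset.sum_congr rfl fun j hj =>
      Finset.sum_congr rfl fun k hk => by
        rw [h i (Finset.mem_range.1 hi) j (Finset.mem_range.1 hj) k (Finset.mem_range.1 hk)]
  simp_rw [key]

theorem exceed_iff (q : List (List (List ℚ)) × ℚ) : SpectralNormExceed q ↔ IsCube q.1 ∧ 0 < q.2 ∧
    IsBig q.1.length (fun i j k => ((entry q.1 i j k : ℚ) : ℝ)) (q.2 : ℝ) := by
  unfold SpectralNormExceed
  refine and_congr_right fun _ => and_congr_right fun h => ?_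
  rw [lt_spectralNorm_iff _ (by exact_mod_cast h), ← exists_unit_iff]
  rfl

theorem bound_iff (q : List (List (List ℚ)) × ℚ) : SpectralNormBound q ↔ IsCube q.1 ∧ 0 < q.2 ∧
    ¬ IsBig q.1.length (fun i j k => ((entry q.1 i j k : ℚ) : ℝ)) (q.2 : ℝ) := by
  unfold SpectralNormBound
  refine and_congr_right fun _ => and_congr_right fun h => ?_
  rw [← not_lt, lt_spectralNorm_iff _ (by exact_mod_cast h), ← exists_unit_iff]
  rfl

theorem isBig_tenL (d : ℕ) (L : List (List QT)) (σ : ℝ) :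
    IsBig (tenL d L).length (fun i j k => ((entry (tenL d L) i j k : ℚ) : ℝ)) σ ↔
      IsBig d (fun i j k => (ten L i j k : ℝ)) σ := by
  have h3 : (tenL d L).length = d := length_tenL _ _
  rw [h3]
  exact isBig_congr (fun i hi j hj k hk => by
      show ((entry (tenL d L) i j k : ℚ) : ℝ) = (ten L i j k : ℝ)
      rw [entry_tenL hi hj hk]
      push_cast
      rfl)

/-- **Correctness of the reduction.** -/
theorem sat_iff_big (S : List ER.Con) : Sat S ↔ IsBig (dimU S)
    (fun i j k => (ten (formsU (hn (gsys S)) (hsysU (gsys S)) (uix S)) i j k : ℝ))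
    (48 * (18 * ((hsysU (gsys S)).length : ℝ))) := by
  have hne := hsysU_ne_nil (gsys_ne_nil S)
  have hpos : (0 : ℝ) < ((hsysU (gsys S)).length : ℝ) := by
    exact_mod_cast List.length_pos_iff.2 hne
  have hG := hsysU_ok (gsys S)
  have hu := uix_lt S
  have hun : uix S < hn (gsys S) := by unfold hn; omega
  have hnd : hn (gsys S) ≤ dimU S := by unfold dimU; omega
  have hLd : (formsU (hn (gsys S)) (hsysU (gsys S)) (uix S)).length ≤ dimU S := by
    unfold dimU; omega
  have hF : ∀ f ∈ formsU (hn (gsys S)) (hsysU (gsys S)) (uix S), FOk (dimU S) f :=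
    fun f hf t ht => by
      have := fok_formsU hG hun (by omega) f hf t ht
      exact ⟨this.1.trans_le hnd, this.2.trans_le hnd⟩
  rw [isBig_ten_iff _ hF hLd (by positivity)]
  constructor
  · intro h
    obtain ⟨w, hw, hc, hw0⟩ := gsys_of_sat h
    obtain ⟨x, x0, xi, hx⟩ := hom_of_sol hw hc
    refine big_of_sol hG hnd hun (x₀ := x) (by rw [x0]; norm_num) ?_ hx
    have := xi _ (uix_mem S)
    unfold uix
    rw [this]
    exact hw0
  · rintro ⟨x, y, hx, hy, hbig⟩
    have hsub : range (hn (gsys S)) ⊆ range (dimU S) := Finset.range_subset_range.2 hnd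
    have hx1 : ∑ i ∈ range (hn (gsys S)), x i ^ 2 ≤ 1 := by
      rw [← hx]
      exact Finset.sum_le_sum_of_subset_of_nonneg hsub (fun _ _ _ => sq_nonneg _)
    have hy1 : ∑ i ∈ range (hn (gsys S)), y i ^ 2 ≤ 1 := by
      rw [← hy]
      exact Finset.sum_le_sum_of_subset_of_nonneg hsub (fun _ _ _ => sq_nonneg _)
    obtain ⟨h1, h2⟩ := approx_of_big hG hne hun hx1 hy1 hbig
    exact sat_of_approx h1 h2

theorem exceed_tenL (d : ℕ) (L : List (List QT)) (q : ℚ) (hq : 0 < q) :
    SpectralNormExceed (tenL d L, q) ↔ IsBig d (fun i j k => (ten L i j k : ℝ)) (q : ℝ) := by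
  rw [exceed_iff]
  simp only
  rw [isBig_tenL]
  exact ⟨fun h => h.2.2, fun h => ⟨isCube_tenL _ _, hq, h⟩⟩

theorem bound_tenL (d : ℕ) (L : List (List QT)) (q : ℚ) (hq : 0 < q) :
    SpectralNormBound (tenL d L, q) ↔ ¬ IsBig d (fun i j k => (ten L i j k : ℝ)) (q : ℝ) := by
  rw [bound_iff]
  simp only
  rw [isBig_tenL]
  exact ⟨fun h => h.2.2, fun h => ⟨isCube_tenL _ _, hq, h⟩⟩

theorem sat_iff_exceed (S : List ER.Con) : Sat S ↔ SpectralNormExceed (instU S) := by
  have hpos : 0 < (hsysU (gsys S)).length := List.length_pos_iff.2 (hsysU_ne_nil (gsys_ne_nil S))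
  have h2 : (0 : ℚ) < (((48 * (18 * (hsysU (gsys S)).length) : ℕ) : ℤ) : ℚ) := by
    exact_mod_cast (by omega : 0 < 48 * (18 * (hsysU (gsys S)).length))
  have h4 : (((((48 * (18 * (hsysU (gsys S)).length) : ℕ) : ℤ) : ℚ)) : ℝ) =
      48 * (18 * ((hsysU (gsys S)).length : ℝ)) := by
    push_cast
    ring
  unfold instU
  rw [exceed_tenL _ _ _ h2, h4, sat_iff_big]

theorem sat_iff_not_bound (S : List ER.Con) : Sat S ↔ ¬ SpectralNormBound (instU S) := by
  have hpos : 0 < (hsysU (gsys S)).length := List.length_pos_iff.2 (hsysU_ne_nil (gsys_ne_nil S))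
  have h2 : (0 : ℚ) < (((48 * (18 * (hsysU (gsys S)).length) : ℕ) : ℤ) : ℚ) := by
    exact_mod_cast (by omega : 0 < 48 * (18 * (hsysU (gsys S)).length))
  have h4 : (((((48 * (18 * (hsysU (gsys S)).length) : ℕ) : ℤ) : ℚ)) : ℝ) =
      48 * (18 * ((hsysU (gsys S)).length : ℝ)) := by
    push_cast
    ring
  unfold instU
  rw [bound_tenL _ _ _ h2, h4, not_not, sat_iff_big]

end Pool.Agent.TH662.SN
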