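import Pool.Agent.TH662.SN.Defs
import Pool.Agent.H78R3.TSV.Sing

/-!
# The spectral norm of the tensor of a list of forms
-/

set_option maxHeartbeats 400000

namespace Pool.Agent.TH662.SN

open Finset Pool.Agent.H78R3.TSV

/-- A version with vectors indexed by all natural numbers. -/
def IsBig (d : ℕ) (t : ℕ → ℕ → ℕ → ℝ) (σ : ℝ) : Prop :=
  ∃ x y z : ℕ → ℝ, ∑ i ∈ range d, x i ^ 2 = 1 ∧ ∑ i ∈ range d, y i ^ 2 = 1 ∧
    ∑ i ∈ range d, z i ^ 2 = 1 ∧
    σ < |∑ i ∈ range d, ∑ j ∈ range d, ∑ k ∈ range d, t i j k * x i * y j * z k|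

theorem abs_le_one_of_norm {d : ℕ} {x : EuclideanSpace ℝ (Fin d)} (hx : ‖x‖ = 1) (i : Fin d) :
    |x i| ≤ 1 := by
  rw [norm_eq_one_iff] at hx
  have h1 : x i ^ 2 ≤ 1 := by
    rw [← hx]
    exact Finset.single_le_sum (f := fun i => x i ^ 2) (fun i _ => sq_nonneg _)
      (Finset.mem_univ i)
  rw [← sq_abs] at h1
  nlinarith [abs_nonneg (x i)]

theorem tri_bounded {d : ℕ} (t : Fin d → Fin d → Fin d → ℝ) :
    BddAbove {r : ℝ | ∃ x y z : EuclideanSpace ℝ (Fin d), ‖x‖ = 1 ∧ ‖y‖ = 1 ∧ ‖z‖ = 1 ∧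
      r = |tri t x y z|} := by
  refine ⟨∑ i, ∑ j, ∑ k, |t i j k|, ?_⟩
  rintro r ⟨x, y, z, hx, hy, hz, rfl⟩
  unfold tri
  refine (Finset.abs_sum_le_sum_abs _ _).trans (Finset.sum_le_sum fun i _ => ?_)
  refine (Finset.abs_sum_le_sum_abs _ _).trans (Finset.sum_le_sum fun j _ => ?_)
  refine (Finset.abs_sum_le_sum_abs _ _).trans (Finset.sum_le_sum fun k _ => ?_)
  rw [abs_mul, abs_mul, abs_mul]
  have h1 := abs_le_one_of_norm hx i
  have h2 := abs_le_one_of_norm hy j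
  have h3 := abs_le_one_of_norm hz k
  have h4 := abs_nonneg (t i j k)
  calc |t i j k| * |x i| * |y j| * |z k| ≤ |t i j k| * 1 * 1 * 1 := by gcongr
    _ = |t i j k| := by ring

theorem lt_spectralNorm_iff {d : ℕ} (t : Fin d → Fin d → Fin d → ℝ) {σ : ℝ} (hσ : 0 < σ) :
    σ < spectralNorm t ↔ ∃ x y z : EuclideanSpace ℝ (Fin d), ‖x‖ = 1 ∧ ‖y‖ = 1 ∧ ‖z‖ = 1 ∧
      σ < |tri t x y z| := by
  unfold spectralNorm
  constructor
  · intro h
    have hne : {r : ℝ | ∃ x y z : EuclideanSpace ℝ (Fin d), ‖x‖ = 1 ∧ ‖y‖ = 1 ∧ ‖z‖ = 1 ∧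
        r = |tri t x y z|}.Nonempty := by
      by_contra hne
      rw [Set.not_nonempty_iff_eq_empty] at hne
      rw [hne, Real.sSup_empty] at h
      linarith
    obtain ⟨r, ⟨x, y, z, hx, hy, hz, rfl⟩, hr⟩ := exists_lt_of_lt_csSup hne h
    exact ⟨x, y, z, hx, hy, hz, hr⟩
  · rintro ⟨x, y, z, hx, hy, hz, hr⟩
    exact lt_csSup_of_lt (tri_bounded t) ⟨x, y, z, hx, hy, hz, rfl⟩ hr

theorem exists_unit_iff {d : ℕ} (t : ℕ → ℕ → ℕ → ℝ) (σ : ℝ) :
    (∃ x y z : EuclideanSpace ℝ (Fin d), ‖x‖ = 1 ∧ ‖y‖ = 1 ∧ ‖z‖ = 1 ∧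
      σ < |tri (fun i j k : Fin d => t i j k) x y z|) ↔ IsBig d t σ := by
  constructor
  · rintro ⟨x, y, z, hx, hy, hz, h1⟩
    rw [norm_eq_one_iff] at hx hy hz
    let X : ℕ → ℝ := fun i => if h : i < d then x ⟨i, h⟩ else 0
    let Y : ℕ → ℝ := fun i => if h : i < d then y ⟨i, h⟩ else 0
    let Z : ℕ → ℝ := fun i => if h : i < d then z ⟨i, h⟩ else 0
    have eX : ∀ i : Fin d, X i = x i := fun i => by simp [X]
    have eY : ∀ i : Fin d, Y i = y i := fun i => by simp [Y]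
    have eZ : ∀ i : Fin d, Z i = z i := fun i => by simp [Z]
    refine ⟨X, Y, Z, ?_, ?_, ?_, ?_⟩
    · rw [← Fin.sum_univ_eq_sum_range (fun i => X i ^ 2)]; simpa only [eX] using hx
    · rw [← Fin.sum_univ_eq_sum_range (fun i => Y i ^ 2)]; simpa only [eY] using hy
    · rw [← Fin.sum_univ_eq_sum_range (fun i => Z i ^ 2)]; simpa only [eZ] using hz
    · rw [← Fin.sum_univ_eq_sum_range (fun i => ∑ j ∈ range d, ∑ k ∈ range d,
        t i j k * X i * Y j * Z k)]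
      simp_rw [← Fin.sum_univ_eq_sum_range (fun j => ∑ k ∈ range d,
        t _ j k * X _ * Y j * Z k), ← Fin.sum_univ_eq_sum_range (fun k =>
        t _ _ k * X _ * Y _ * Z k), eX, eY, eZ]
      exact h1
  · rintro ⟨x, y, z, hx, hy, hz, h1⟩
    refine ⟨WithLp.toLp 2 fun i => x i, WithLp.toLp 2 fun i => y i, WithLp.toLp 2 fun i => z i,
      ?_, ?_, ?_, ?_⟩
    · rw [norm_eq_one_iff, ← hx]
      exact Fin.sum_univ_eq_sum_range (fun i => x i ^ 2) d
    · rw [norm_eq_one_iff, ← hy]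
      exact Fin.sum_univ_eq_sum_range (fun i => y i ^ 2) d
    · rw [norm_eq_one_iff, ← hz]
      exact Fin.sum_univ_eq_sum_range (fun i => z i ^ 2) d
    · rw [← Fin.sum_univ_eq_sum_range (fun i => ∑ j ∈ range d, ∑ k ∈ range d,
        t i j k * x i * y j * z k)] at h1
      simp_rw [← Fin.sum_univ_eq_sum_range (fun j => ∑ k ∈ range d,
        t _ j k * x _ * y j * z k), ← Fin.sum_univ_eq_sum_range (fun k =>
        t _ _ k * x _ * y _ * z k)] at h1
      exact h1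

/-- The values of the trilinear form of a list of forms. -/
theorem tri_ten (d : ℕ) (L : List (List QT)) (hF : ∀ f ∈ L, FOk d f) (x y z : ℕ → ℝ) :
    ∑ i ∈ range d, ∑ j ∈ range d, ∑ k ∈ range d, (ten L i j k : ℝ) * x i * y j * z k =
      ∑ k ∈ range d, z k * fev x y (L.getD k []) := by
  have h1 : ∀ i j : ℕ, ∑ k ∈ range d, (ten L i j k : ℝ) * x i * y j * z k =
      ∑ k ∈ range d, z k * ((cf (L.getD k []) i j : ℝ) * x i * y j) := by
    intro i j
    refine Finset.sum_congr rfl fun k _ => ?_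
    unfold ten
    ring
  simp_rw [h1]
  have h2 : ∀ i : ℕ, ∑ j ∈ range d, ∑ k ∈ range d, z k * ((cf (L.getD k []) i j : ℝ) * x i * y j) =
      ∑ k ∈ range d, ∑ j ∈ range d, z k * ((cf (L.getD k []) i j : ℝ) * x i * y j) :=
    fun i => Finset.sum_comm
  simp_rw [h2]
  rw [Finset.sum_comm]
  refine Finset.sum_congr rfl fun k _ => ?_
  simp_rw [← Finset.mul_sum]
  rw [sum_cf d _ (fok_getD hF k)]

/-- The spectral norm of the tensor of a list of forms is the square root of the maximum of the sum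
of the squares of the forms. -/
theorem isBig_ten_iff {d : ℕ} (L : List (List QT)) (hF : ∀ f ∈ L, FOk d f) (hL : L.length ≤ d)
    {σ : ℝ} (hσ : 0 < σ) :
    IsBig d (fun i j k => (ten L i j k : ℝ)) σ ↔
      ∃ x y : ℕ → ℝ, ∑ i ∈ range d, x i ^ 2 = 1 ∧ ∑ i ∈ range d, y i ^ 2 = 1 ∧
        σ ^ 2 < S x y x y L := by
  have hS : ∀ x y : ℕ → ℝ, ∑ k ∈ range d, fev x y (L.getD k []) ^ 2 = S x y x y L := by
    intro x y
    unfold S
    rw [← sum_getD L hL (fun f => fev x y f * fev x y f) (by simp)]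
    exact Finset.sum_congr rfl fun k _ => sq _
  constructor
  · rintro ⟨x, y, z, hx, hy, hz, h⟩
    refine ⟨x, y, hx, hy, ?_⟩
    rw [tri_ten d L hF] at h
    have h1 := Finset.sum_mul_sq_le_sq_mul_sq (range d) z (fun k => fev x y (L.getD k []))
    rw [hz, one_mul, hS] at h1
    have h2 : σ ^ 2 < |∑ k ∈ range d, z k * fev x y (L.getD k [])| ^ 2 :=
      pow_lt_pow_left₀ h hσ.le two_ne_zero
    rw [sq_abs] at h2
    linarith
  · rintro ⟨x, y, hx, hy, h⟩
    have hpos : 0 < S x y x y L := lt_trans (by positivity) h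
    set s := Real.sqrt (S x y x y L) with hs
    have hs2 : s ^ 2 = S x y x y L := Real.sq_sqrt hpos.le
    have hs0 : 0 < s := Real.sqrt_pos.2 hpos
    refine ⟨x, y, fun k => fev x y (L.getD k []) / s, hx, hy, ?_, ?_⟩
    · simp_rw [div_pow]
      rw [← Finset.sum_div, hS, hs2, div_self hpos.ne']
    · rw [tri_ten d L hF]
      have h1 : ∑ k ∈ range d, fev x y (L.getD k []) / s * fev x y (L.getD k []) = s := by
        have h2 : ∀ k, fev x y (L.getD k []) / s * fev x y (L.getD k []) =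
            fev x y (L.getD k []) ^ 2 / s := fun k => by ring
        simp_rw [h2]
        rw [← Finset.sum_div, hS, ← hs2, sq, mul_div_assoc, div_self hs0.ne', mul_one]
      rw [h1, abs_of_pos hs0]
      nlinarith

end Pool.Agent.TH662.SN
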