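import Pool.Agent.TH662.SN.Chain
import Pool.Agent.TH662.SN.Norm
import Pool.Agent.H78R3.TSV.Red
import Pool.Agent.ER.GapSys

/-!
# The system with a tiny number, and its homogenization
-/

set_option maxHeartbeats 400000

namespace Pool.Agent.TH662.SN

open Finset Pool.Agent.NPC Pool.Agent.NPC.ER Pool.Agent.H78R3.TSV

/-- A variable that does not occur in the bounded system. -/
def fresh (S : List ER.Con) : ℕ := (svars (bsys S)).sum + 1

/-- The length of the chain of squarings. -/
def chK (S : List ER.Con) : ℕ := gapK (bsys S).length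

/-- The bounded system together with a chain of squarings. -/
def gsys (S : List ER.Con) : List ER.Con :=
  bsys S ++ (ER.Con.one (fresh S) :: (List.range (chK S)).map fun j =>
    ER.Con.mul (fresh S + j) (fresh S + j) (fresh S + j + 1))

/-- The bound `4 x² + 4 s² = x₀²`. -/
def slack4 (N r : ℕ) : QC := ((4, r + 1, r + 1), (4, N + 1 + r, N + 1 + r), (-1, 0, 0))

/-- The homogeneous system. -/
def hsysU (T : List ER.Con) : List QC :=
  T.map (hcon (svars T)) ++ (List.range (svars T).length).map (slack4 (svars T).length)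

theorem hsysU_ok (T : List ER.Con) : ∀ g ∈ hsysU T, GOk (hn T) g := by
  intro g hg
  unfold hsysU at hg
  rw [List.mem_append, List.mem_map, List.mem_map] at hg
  rcases hg with ⟨c, hc, rfl⟩ | ⟨r, hr, rfl⟩
  · exact hsys_ok T _ (List.mem_append_left _ (List.mem_map.2 ⟨c, hc, rfl⟩))
  · have := List.mem_range.1 hr
    refine ⟨⟨by simp [slack4], ?_, ?_⟩, ⟨by simp [slack4], ?_, ?_⟩, ⟨by simp [slack4], ?_, ?_⟩⟩ <;>
        simp only [slack4, hn] <;> omega

/-- An exact solution of a system of constraints gives a solution of the homogeneous system. -/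
theorem hom_of_sol {T : List ER.Con} {w : ℕ → ℝ} (hw : ∀ i, |w i| ≤ 1 / 8)
    (hc : ∀ c ∈ T, c.HoldsC (1 / 8) w) :
    ∃ x : ℕ → ℝ, x 0 = 1 ∧ (∀ i ∈ svars T, x (ix (svars T) i) = w i) ∧
      ∀ g ∈ hsysU T, gev x x g = 0 := by
  set V := svars T with hV
  set N := V.length with hN
  let x : ℕ → ℝ := fun i => if i = 0 then 1 else if i < N + 1 then w (V.getD (i - 1) 0) else
    Real.sqrt (1 / 4 - w (V.getD (i - (N + 1)) 0) ^ 2)
  have x0 : x 0 = 1 := by simp [x]
  have x1 : ∀ r < N, x (r + 1) = w (V.getD r 0) := by
    intro r hr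
    simp only [x]
    rw [if_neg (by omega), if_pos (by omega)]
    simp
  have x2 : ∀ r < N, x (N + 1 + r) = Real.sqrt (1 / 4 - w (V.getD r 0) ^ 2) := by
    intro r hr
    simp only [x]
    rw [if_neg (by omega), if_neg (by omega)]
    congr 5
    omega
  have xi : ∀ i ∈ V, x (ix V i) = w i := by
    intro i hi
    have h1 := List.idxOf_lt_length_of_mem hi
    unfold ix
    rw [x1 _ h1, List.getD_eq_getElem _ _ h1, List.getElem_idxOf h1]
  refine ⟨x, x0, xi, ?_⟩
  intro g hg
  unfold hsysU at hg
  rw [List.mem_append, List.mem_map, List.mem_map] at hg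
  rcases hg with ⟨c, hcT, rfl⟩ | ⟨r, hr, rfl⟩
  · have hh := hc c hcT
    cases c with
    | one i =>
      have e1 := xi i (mem_svars hcT (by simp [Con.vars]))
      simp only [Con.HoldsC] at hh
      simp only [gev, tev, bev, hcon]
      rw [← hV, e1, x0, hh]
      push_cast
      norm_num
    | add i j k =>
      have e1 := xi i (mem_svars hcT (by simp [Con.vars]))
      have e2 := xi j (mem_svars hcT (by simp [Con.vars]))
      have e3 := xi k (mem_svars hcT (by simp [Con.vars]))
      simp only [Con.HoldsC] at hh
      simp only [gev, tev, bev, hcon]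
      rw [← hV, e1, e2, e3, x0, ← hh]
      push_cast
      ring
    | mul i j k =>
      have e1 := xi i (mem_svars hcT (by simp [Con.vars]))
      have e2 := xi j (mem_svars hcT (by simp [Con.vars]))
      have e3 := xi k (mem_svars hcT (by simp [Con.vars]))
      simp only [Con.HoldsC] at hh
      simp only [gev, tev, bev, hcon]
      rw [← hV, e1, e2, e3, x0, ← hh]
      push_cast
      ring
  · have hr := List.mem_range.1 hr
    simp only [gev, tev, bev, slack4]
    rw [← hV, ← hN, x1 r hr, x2 r hr, x0]
    push_cast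
    have h1 : 0 ≤ 1 / 4 - w (V.getD r 0) ^ 2 := by
      have := hw (V.getD r 0)
      have h2 : w (V.getD r 0) ^ 2 ≤ (1 / 8) ^ 2 := by
        rw [← sq_abs]
        exact pow_le_pow_left₀ (abs_nonneg _) this 2
      have h3 : ((1 : ℝ) / 8) ^ 2 ≤ 1 / 4 := by norm_num
      linarith
    have h2 := Real.mul_self_sqrt h1
    nlinarith

theorem lt_fresh {S : List ER.Con} {i : ℕ} (hi : i ∈ svars (bsys S)) : i < fresh S := by
  unfold fresh
  have := List.single_le_sum (l := svars (bsys S)) (fun _ _ => Nat.zero_le _) i hi
  omega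

/-- A satisfiable system gives a small exact solution with a nonzero last number. -/
theorem gsys_of_sat {S : List ER.Con} (h : Sat S) :
    ∃ w : ℕ → ℝ, (∀ i, |w i| ≤ 1 / 8) ∧ (∀ c ∈ gsys S, c.HoldsC (1 / 8) w) ∧
      w (fresh S + chK S) ≠ 0 := by
  obtain ⟨w, hw, hc⟩ := bsys_of_sat h
  let w' : ℕ → ℝ := fun i => if i < fresh S then w i else (1 / 8) ^ 2 ^ (i - fresh S)
  have w0 : ∀ i ∈ svars (bsys S), w' i = w i := fun i hi => by
    simp only [w']
    rw [if_pos (lt_fresh hi)]
  have w1 : ∀ j, w' (fresh S + j) = (1 / 8) ^ 2 ^ j := fun j => by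
    simp only [w']
    rw [if_neg (by omega)]
    congr 2
    omega
  refine ⟨w', ?_, ?_, ?_⟩
  · intro i
    simp only [w']
    split_ifs with h
    · exact hw i
    · rw [abs_of_pos (by positivity)]
      calc ((1 : ℝ) / 8) ^ 2 ^ (i - fresh S) ≤ (1 / 8) ^ 1 :=
            pow_le_pow_of_le_one (by norm_num) (by norm_num) Nat.one_le_two_pow
        _ = 1 / 8 := by norm_num
  · intro c hcm
    unfold gsys at hcm
    rw [List.mem_append, List.mem_cons, List.mem_map] at hcm
    rcases hcm with hcm | rfl | ⟨j, _, rfl⟩
    · have h1 := hc c hcm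
      cases c with
      | one i =>
        simp only [Con.HoldsC] at h1 ⊢
        rw [w0 i (mem_svars hcm (by simp [Con.vars])), h1]
      | add i j k =>
        simp only [Con.HoldsC] at h1 ⊢
        rw [w0 i (mem_svars hcm (by simp [Con.vars])), w0 j (mem_svars hcm (by simp [Con.vars])),
          w0 k (mem_svars hcm (by simp [Con.vars])), h1]
      | mul i j k =>
        simp only [Con.HoldsC] at h1 ⊢
        rw [w0 i (mem_svars hcm (by simp [Con.vars])), w0 j (mem_svars hcm (by simp [Con.vars])),
          w0 k (mem_svars hcm (by simp [Con.vars])), h1]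
    · simp only [Con.HoldsC]
      have := w1 0
      simpa using this
    · simp only [Con.HoldsC]
      rw [w1, show fresh S + j + 1 = fresh S + (j + 1) by ring, w1, ← pow_add]
      congr 1
      ring
  · rw [w1]
    positivity

/-- The index of the last number of the chain. -/
def uix (S : List ER.Con) : ℕ := ix (svars (gsys S)) (fresh S + chK S)

theorem uix_mem (S : List ER.Con) : fresh S + chK S ∈ svars (gsys S) := by
  rcases Nat.eq_zero_or_pos (chK S) with h | h
  · apply mem_svars (c := ER.Con.one (fresh S))
    · unfold gsys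
      exact List.mem_append_right _ List.mem_cons_self
    · rw [h]; simp [Con.vars]
  · apply mem_svars (c := ER.Con.mul (fresh S + (chK S - 1)) (fresh S + (chK S - 1))
      (fresh S + (chK S - 1) + 1))
    · unfold gsys
      refine List.mem_append_right _ (List.mem_cons_of_mem _ (List.mem_map.2 ⟨chK S - 1, ?_, rfl⟩))
      rw [List.mem_range]; omega
    · have : fresh S + (chK S - 1) + 1 = fresh S + chK S := by omega
      rw [this]
      simp [Con.vars]

theorem uix_lt (S : List ER.Con) : 1 ≤ uix S ∧ uix S ≤ (svars (gsys S)).length := by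
  unfold uix ix
  have := List.idxOf_lt_length_of_mem (uix_mem S)
  omega

/-- An approximate solution of the homogeneous system, with errors that are small compared with the
last number of the chain, shows that the original system is satisfiable. -/
theorem sat_of_approx {S : List ER.Con} {x : ℕ → ℝ}
    (hx : 0 < ∑ i ∈ range (hn (gsys S)), x i ^ 2)
    (hg : ∀ g ∈ hsysU (gsys S), |gev x x g| ≤ |x (uix S)| * |x 0| / 2) : Sat S := by
  set T := gsys S with hT
  set V := svars T with hV
  set N := V.length with hN
  have hu := uix_lt S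
  rw [← hT, ← hV, ← hN] at hu
  have hslack : ∀ r < N, |4 * x (r + 1) ^ 2 + 4 * x (N + 1 + r) ^ 2 - x 0 ^ 2| ≤
      |x (uix S)| * |x 0| / 4 := by
    intro r hr
    have h1 := hg (slack4 N r) (by
      unfold hsysU
      exact List.mem_append_right _ (List.mem_map.2 ⟨r, List.mem_range.2 hr, rfl⟩))
    have h2 : gev x x (slack4 N r) = 2 * (4 * x (r + 1) ^ 2 + 4 * x (N + 1 + r) ^ 2 - x 0 ^ 2) := by
      simp only [gev, tev, bev, slack4]
      push_cast
      ring
    rw [h2, abs_mul] at h1
    norm_num at h1
    linarith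
  -- the last number is at most the homogenizing variable
  have hux : |x (uix S)| ≤ |x 0| := by
    by_contra hcon
    push Not at hcon
    have h1 := hslack (uix S - 1) (by omega)
    rw [Nat.sub_add_cancel hu.1] at h1
    have h2 := (abs_le.1 h1).2
    have h3 : x (uix S) ^ 2 = |x (uix S)| * |x (uix S)| := by rw [abs_mul_abs_self]; ring
    have h4 : x 0 ^ 2 = |x 0| * |x 0| := by rw [abs_mul_abs_self]; ring
    have h5 := abs_nonneg (x 0)
    nlinarith [sq_nonneg (x (N + 1 + (uix S - 1)))]
  have hx0 : x 0 ≠ 0 := by
    intro h0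
    have hu0 : |x (uix S)| = 0 := by
      have := abs_nonneg (x (uix S))
      rw [h0, abs_zero] at hux
      linarith
    have hz : ∀ i ∈ range (hn T), x i ^ 2 = 0 := by
      intro i hi
      have hi := Finset.mem_range.1 hi
      have hN' : (svars T).length = N := rfl
      unfold hn at hi
      rw [hN'] at hi
      rcases Nat.eq_zero_or_pos i with h | h
      · rw [h, h0]; ring
      · rcases lt_or_ge (i - 1) N with h2 | h2
        · have h3 := (abs_le.1 (hslack (i - 1) h2)).2
          rw [h0, hu0, Nat.sub_add_cancel h] at h3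
          nlinarith [sq_nonneg (x i), sq_nonneg (x (N + 1 + (i - 1)))]
        · have h3 := (abs_le.1 (hslack (i - (N + 1)) (by omega))).2
          have h4 : N + 1 + (i - (N + 1)) = i := by omega
          rw [h0, hu0, h4] at h3
          nlinarith [sq_nonneg (x i), sq_nonneg (x (i - (N + 1) + 1))]
    rw [Finset.sum_eq_zero hz] at hx
    exact lt_irrefl _ hx
  have hx0p : 0 < |x 0| := abs_pos.2 hx0
  have hx02 : x 0 ^ 2 = |x 0| * |x 0| := by rw [abs_mul_abs_self]; ring
  -- the dehomogenized point
  set v : ℕ → ℝ := fun i => x (ix V i) / x 0 with hv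
  set U := |v (fresh S + chK S)| with hU
  have hUe : U = |x (uix S)| / |x 0| := by
    rw [hU, hv]
    simp only
    rw [abs_div]
    rfl
  have hU1 : U ≤ 1 := by
    rw [hUe, div_le_one hx0p]
    exact hux
  have hU0 : 0 ≤ U := abs_nonneg _
  have hxu : |x (uix S)| = U * |x 0| := by
    rw [hUe]
    field_simp
  have hvle : ∀ i ∈ V, |v i| ≤ 1 := by
    intro i hi
    have hidx : V.idxOf i < N := List.idxOf_lt_length_of_mem hi
    have h1 := (abs_le.1 (hslack (V.idxOf i) hidx)).2
    rw [hxu] at h1
    have h2 : x (ix V i) ^ 2 = |x (ix V i)| * |x (ix V i)| := by rw [abs_mul_abs_self]; ring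
    have h3 : x (V.idxOf i + 1) = x (ix V i) := rfl
    rw [h3, h2, hx02] at h1
    simp only [hv, abs_div]
    rw [div_le_one hx0p]
    nlinarith [sq_nonneg (x (N + 1 + V.idxOf i)), abs_nonneg (x (ix V i))]
  have herr : ∀ c ∈ T, |c.err v| ≤ U / 4 := by
    intro c hc
    have h1 := hg (hcon V c) (by
      unfold hsysU
      exact List.mem_append_left _ (List.mem_map.2 ⟨c, hc, rfl⟩))
    have h2 : gev x x (hcon V c) = 2 * x 0 ^ 2 * c.err v := by
      cases c with
      | one i =>
        simp only [gev, tev, bev, hcon, Con.err, hv]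
        push_cast
        field_simp
        ring
      | add i j k =>
        simp only [gev, tev, bev, hcon, Con.err, hv]
        push_cast
        field_simp
        ring
      | mul i j k =>
        simp only [gev, tev, bev, hcon, Con.err, hv]
        push_cast
        field_simp
        ring
    rw [h2, abs_mul, hxu, abs_mul, abs_of_nonneg (sq_nonneg (x 0)), hx02] at h1
    norm_num at h1
    have h3 : 2 * (|x 0| * |x 0|) * |c.err v| ≤ 2 * (|x 0| * |x 0|) * (U / 4) := by
      have h4 : |x 0| * |x 0| = x 0 * x 0 := abs_mul_abs_self _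
      rw [mul_assoc U, h4] at h1
      rw [h4]
      linarith
    exact le_of_mul_le_mul_left h3 (by positivity)
  -- the chain
  have hch : U ≤ (1 / 2) ^ 2 ^ chK S := by
    apply chain_small (e := fun j => v (fresh S + j)) (K := chK S) hU1
    · have h1 := herr (ER.Con.one (fresh S)) (by
        rw [hT]; unfold gsys
        exact List.mem_append_right _ List.mem_cons_self)
      simpa [Con.err] using h1
    · intro j hj
      have h1 := herr (ER.Con.mul (fresh S + j) (fresh S + j) (fresh S + j + 1)) (by
        rw [hT]; unfold gsys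
        exact List.mem_append_right _ (List.mem_cons_of_mem _ (List.mem_map.2
          ⟨j, List.mem_range.2 hj, rfl⟩)))
      simp only [Con.err] at h1
      exact h1
  obtain ⟨w', hw'⟩ := holds_of_approx (S := bsys S) (w := v) (fun i hi => by
      apply hvle
      unfold svars at hi
      rw [hV, hT]
      unfold svars gsys
      rw [List.flatMap_append]
      exact List.mem_append_left _ hi) (fun c hc => by
    have h1 := herr c (by rw [hT]; unfold gsys; exact List.mem_append_left _ hc)
    have h2 : |c.err v| ≤ (1 / 2) ^ 2 ^ chK S := by linarith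
    calc |c.err v| * 2 ^ 2 ^ gapK (bsys S).length ≤
        (1 / 2) ^ 2 ^ chK S * 2 ^ 2 ^ gapK (bsys S).length :=
          mul_le_mul_of_nonneg_right h2 (by positivity)
      _ = 1 := by
        unfold chK
        rw [← mul_pow]
        norm_num)
  exact sat_of_bsys hw'

end Pool.Agent.TH662.SN
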