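import Pool.Agent.TH662.SN.Exceed
import Pool.Agent.H78R3.TSV.Mem
import Pool.Agent.H612.AR

/-!
# The complexity of the spectral norm problems
-/

set_option maxHeartbeats 400000

namespace Pool.Agent.NPC.TH662SN

open Pool.Agent.NPC Pool.Agent.NPC.ER Pool.Agent.H78R3.TSV Pool.Agent.TH662.SN
  Pool.Agent.NPC.H78TSV Pool.Agent.NPC.H670R2
open Finset

section

variable {α : Type} [TEnc α]

theorem poly_fresh {S : α → List ER.Con} (hS : Poly S) : Poly (fun a => fresh (S a)) :=
  Poly.succ (Poly.sum (poly_svars (poly_bsys hS)))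

theorem upoly_chK {S : α → List ER.Con} (hS : Poly S) : UPoly (fun a => chK (S a)) :=
  UPoly.add (UPoly.mul (UPoly.const 11) (UPoly.length (poly_bsys hS))) (UPoly.const 7)

theorem poly_gsys {S : α → List ER.Con} (hS : Poly S) : Poly (fun a => gsys (S a)) := by
  have hf := poly_fresh hS
  refine Poly.append (poly_bsys hS) (Poly.cons (poly_con_one hf) ?_)
  refine Poly.map (F := fun a j => ER.Con.mul (fresh (S a) + j) (fresh (S a) + j)
    (fresh (S a) + j + 1)) (upoly_chK hS).range ?_
  have h1 : Poly (fun p : α × ℕ => fresh (S p.1) + p.2) :=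
    Poly.add (hf.comp (Poly.fst Poly.id)) (Poly.snd Poly.id)
  exact poly_con_mul h1 h1 (Poly.succ h1)

theorem poly_slack4 {N r : α → ℕ} (hN : Poly N) (hr : Poly r) :
    Poly (fun a => slack4 (N a) (r a)) := by
  have h1 := Poly.succ hr
  have h2 : Poly (fun a => N a + 1 + r a) := Poly.add (Poly.succ hN) hr
  exact Poly.pair (Poly.pair (Poly.const 4) (Poly.pair h1 h1))
    (Poly.pair (Poly.pair (Poly.const 4) (Poly.pair h2 h2)) (Poly.const _))

theorem poly_hsysU {T : α → List ER.Con} (hT : Poly T) : Poly (fun a => hsysU (T a)) := by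
  have hV := poly_svars hT
  refine Poly.append ?_ ?_
  · exact Poly.map (F := fun a c => hcon (svars (T a)) c) hT
      (poly_hcon (hV.comp (Poly.fst Poly.id)) (Poly.snd Poly.id))
  · refine Poly.map (F := fun a r => slack4 (svars (T a)).length r) (UPoly.length hV).range ?_
    exact poly_slack4 ((Poly.length hV).comp (Poly.fst Poly.id)) (Poly.snd Poly.id)

theorem poly_uix {S : α → List ER.Con} (hS : Poly S) : Poly (fun a => uix (S a)) :=
  poly_ix (poly_svars (poly_gsys hS)) (Poly.add (poly_fresh hS) (upoly_chK hS).toPoly)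

theorem poly_rep {G : α → List QC} (hG : Poly G) : Poly (fun a => rep (G a)) := by
  refine Poly.flatMap (F := fun _ g => List.replicate 18 g) hG ?_
  refine (Poly.map (F := fun (p : α × QC) (_ : ℕ) => p.2) (Poly.const (List.range 18))
    (Poly.snd (Poly.fst Poly.id))).congr fun p => ?_
  rfl

theorem poly_formsU {n u : α → ℕ} {G : α → List QC} (hn : UPoly n) (hG : Poly G) (hu : Poly u) :
    Poly (fun a => formsU (n a) (G a) (u a)) := by
  refine Poly.append (poly_forms hn (poly_rep hG)) (Poly.cons (Poly.cons (Poly.pair (Poly.const 1)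
    (Poly.pair hu (Poly.const 0))) (Poly.const [])) (Poly.const []))

theorem poly_instU {S : α → List ER.Con} (hS : Poly S) : Poly (fun a => instU (S a)) := by
  have hT := poly_gsys hS
  have hG := poly_hsysU hT
  have hF := poly_formsU (upoly_hn hT) hG (poly_uix hS)
  refine Poly.pair (poly_tenL (UPoly.add (upoly_hn hT) (UPoly.length hF)) hF) ?_
  exact poly_intToRat (Poly.natCast (Poly.mul (Poly.const 48)
    (Poly.mul (Poly.const 18) (Poly.length hG))))

/-! ### Membership -/

/-- The term `T(x, y, z)`. -/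
def triTm (d : ℕ) : Tm :=
  sumTm ((List.range d).flatMap fun i => (List.range d).flatMap fun j => (List.range d).map fun k =>
    Tm.mul (Tm.mul (Tm.mul (Tm.var (vw d i j k)) (Tm.var (4 * i))) (Tm.var (4 * j + 1)))
      (Tm.var (4 * k + 2)))

/-- The list of the formulas. -/
def gAll (q : List (List (List ℚ)) × ℚ) : List Fm :=
  fU q.1.length 0 :: fU q.1.length 1 :: fU q.1.length 2 ::
    eqRat (Tm.var (vs q.1.length)) q.2 ::
    Fm.or (Fm.lt (Tm.var (vs q.1.length)) (triTm q.1.length))
      (Fm.lt (Tm.var (vs q.1.length)) (Tm.neg (triTm q.1.length))) :: fEnt q.1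

theorem eval_triTm (d : ℕ) (v : ℕ → ℝ) : (triTm d).eval v =
    ∑ i ∈ range d, ∑ j ∈ range d, ∑ k ∈ range d,
      v (vw d i j k) * v (4 * i) * v (4 * j + 1) * v (4 * k + 2) := by
  unfold triTm
  rw [eval_sumTm]
  have h1 : ∀ (l : List ℕ) (F : ℕ → List Tm) (φ : ℕ → ℝ),
      (∀ i ∈ l, ((F i).map (Tm.eval v)).sum = φ i) →
      ((l.flatMap F).map (Tm.eval v)).sum = (l.map φ).sum := by
    intro l F φ h
    induction l with
    | nil => simp
    | cons a l ih =>
      simp only [List.flatMap_cons, List.map_append, List.sum_append, List.map_cons,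
        List.sum_cons]
      rw [h a List.mem_cons_self, ih fun i hi => h i (List.mem_cons_of_mem _ hi)]
  rw [h1 _ _ _ fun i _ => rfl, sum_list_range]
  refine Finset.sum_congr rfl fun i _ => ?_
  rw [sum_flatMap_range, sum_list_range]
  simp only [Tm.eval]

/-- The formula. -/
def gSN (q : List (List (List ℚ)) × ℚ) : Fm :=
  bif isCubeB q.1 && isPosB q.2 then conj (gAll q) else H670R2.ff

theorem lt_abs_iff' (a b : ℝ) : a < |b| ↔ a < b ∨ a < -b := lt_abs

theorem exceed_iff_etr (q : List (List (List ℚ)) × ℚ) :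
    SpectralNormExceed q ↔ ETR (gSN q) := by
  rw [exceed_iff]
  unfold gSN
  by_cases hq : isCubeB q.1 = true ∧ isPosB q.2 = true
  · have hb : (isCubeB q.1 && isPosB q.2) = true := by rw [hq.1, hq.2]; rfl
    rw [hb, cond_true]
    have h1 := (isCubeB_iff _).1 hq.1
    have h2 := (isPosB_iff _).1 hq.2
    have h3 : (IsCube q.1 ∧ 0 < q.2 ∧ IsBig q.1.length
        (fun i j k => ((entry q.1 i j k : ℚ) : ℝ)) (q.2 : ℝ)) ↔
        IsBig q.1.length (fun i j k => ((entry q.1 i j k : ℚ) : ℝ)) (q.2 : ℝ) :=
      ⟨fun h => h.2.2, fun h => ⟨h1, h2, h⟩⟩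
    rw [h3]
    unfold ETR gAll
    simp_rw [holds_conj, List.forall_mem_cons, holds_fU, holds_fEnt, holds_eqRat, Fm.Holds,
      Tm.eval, eval_triTm, ← lt_abs_iff']
    set d := q.1.length with hd
    constructor
    · rintro ⟨x, y, z, hx, hy, hz, g1⟩
      let v : ℕ → ℝ := fun n => if n % 4 = 0 then x (n / 4) else if n % 4 = 1 then y (n / 4) else
        if n % 4 = 2 then z (n / 4) else
        if n / 4 = d * d * d then (q.2 : ℝ) else
          ((entry q.1 (n / 4 / d / d) (n / 4 / d % d) (n / 4 % d) : ℚ) : ℝ)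
      have v0 : ∀ i, v (4 * i) = x i := by
        intro i
        simp only [v]
        rw [if_pos (by omega)]
        congr 1; omega
      have v0' : ∀ i, v (4 * i + 0) = x i := v0
      have v1 : ∀ i, v (4 * i + 1) = y i := by
        intro i
        simp only [v]
        rw [if_neg (by omega), if_pos (by omega)]
        congr 1; omega
      have v2 : ∀ i, v (4 * i + 2) = z i := by
        intro i
        simp only [v]
        rw [if_neg (by omega), if_neg (by omega), if_pos (by omega)]
        congr 1; omega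
      have v3 : v (vs d) = (q.2 : ℝ) := by
        simp only [v, vs]
        rw [if_neg (by omega), if_neg (by omega), if_neg (by omega), if_pos (by omega)]
      have v4 : ∀ i < d, ∀ j < d, ∀ k < d, v (vw d i j k) = ((entry q.1 i j k : ℚ) : ℝ) := by
        intro i hi j hj k hk
        have e0 : (4 * ((i * d + j) * d + k) + 3) / 4 = (i * d + j) * d + k := by omega
        have hd0 : 0 < d := by omega
        have e1 : ((i * d + j) * d + k) % d = k := by
          rw [Nat.mul_comm, Nat.mul_add_mod, Nat.mod_eq_of_lt hk]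
        have e2 : ((i * d + j) * d + k) / d = i * d + j := by
          rw [Nat.mul_comm, Nat.mul_add_div hd0, Nat.div_eq_of_lt hk, Nat.add_zero]
        have e3 : (i * d + j) % d = j := by
          rw [Nat.mul_comm, Nat.mul_add_mod, Nat.mod_eq_of_lt hj]
        have e4 : (i * d + j) / d = i := by
          rw [Nat.mul_comm, Nat.mul_add_div hd0, Nat.div_eq_of_lt hj, Nat.add_zero]
        have e5 : (i * d + j) * d + k ≠ d * d * d := by
          have h5 : i * d + j < d * d := by
            calc i * d + j < i * d + d := by omega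
              _ = (i + 1) * d := by ring
              _ ≤ d * d := Nat.mul_le_mul_right _ hi
          have h6 : (i * d + j) * d + k < d * d * d := by
            calc (i * d + j) * d + k < (i * d + j) * d + d := by omega
              _ = (i * d + j + 1) * d := by ring
              _ ≤ d * d * d := Nat.mul_le_mul_right _ h5
          omega
        simp only [v, vw]
        rw [if_neg (by omega), if_neg (by omega), if_neg (by omega), e0, if_neg e5, e2, e4, e1, e3]
      refine ⟨v, ?_, ?_, ?_, v3, ?_, v4⟩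
      · simp_rw [v0']; exact hx
      · simp_rw [v1]; exact hy
      · simp_rw [v2]; exact hz
      · rw [v3]
        refine lt_of_lt_of_eq g1 (congrArg _ ?_)
        exact Finset.sum_congr rfl fun i hi => Finset.sum_congr rfl fun j hj =>
          Finset.sum_congr rfl fun k hk => by
          rw [v4 i (Finset.mem_range.1 hi) j (Finset.mem_range.1 hj) k (Finset.mem_range.1 hk),
            v0, v1, v2]
    · rintro ⟨v, hx, hy, hz, v3, g1, v4⟩
      refine ⟨fun i => v (4 * i), fun i => v (4 * i + 1), fun i => v (4 * i + 2), hx, hy, hz, ?_⟩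
      rw [← v3]
      refine lt_of_lt_of_eq g1 (congrArg _ ?_)
      exact Finset.sum_congr rfl fun i hi => Finset.sum_congr rfl fun j hj =>
          Finset.sum_congr rfl fun k hk => by
          rw [v4 i (Finset.mem_range.1 hi) j (Finset.mem_range.1 hj) k (Finset.mem_range.1 hk)]
  · have hb : (isCubeB q.1 && isPosB q.2) = false := by
      rw [Bool.eq_false_iff]
      intro h
      exact hq (Bool.and_eq_true_iff.1 h)
    rw [hb, cond_false]
    constructor
    · rintro ⟨h1, h2, -⟩
      exact absurd ⟨(isCubeB_iff _).2 h1, (isPosB_iff _).2 h2⟩ hq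
    · intro h
      exact absurd h H670R2.not_etr_ff

theorem poly_triTm {d : α → ℕ} (hd : UPoly d) : Poly (fun a => triTm (d a)) := by
  refine poly_sumTm (Poly.flatMap (F := fun a i => (List.range (d a)).flatMap fun j =>
    (List.range (d a)).map fun k =>
    Tm.mul (Tm.mul (Tm.mul (Tm.var (vw (d a) i j k)) (Tm.var (4 * i))) (Tm.var (4 * j + 1)))
      (Tm.var (4 * k + 2))) hd.range ?_)
  refine Poly.flatMap (F := fun (p : α × ℕ) j => (List.range (d p.1)).map fun k =>
    Tm.mul (Tm.mul (Tm.mul (Tm.var (vw (d p.1) p.2 j k)) (Tm.var (4 * p.2)))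
      (Tm.var (4 * j + 1))) (Tm.var (4 * k + 2))) (hd.range.comp (Poly.fst Poly.id)) ?_
  refine Poly.map (F := fun (p : (α × ℕ) × ℕ) k =>
    Tm.mul (Tm.mul (Tm.mul (Tm.var (vw (d p.1.1) p.1.2 p.2 k)) (Tm.var (4 * p.1.2)))
      (Tm.var (4 * p.2 + 1))) (Tm.var (4 * k + 2)))
    (hd.range.comp (Poly.fst (Poly.fst Poly.id))) ?_
  have e1 : Poly (fun p : ((α × ℕ) × ℕ) × ℕ => p.1.1.1) :=
    Poly.fst (Poly.fst (Poly.fst Poly.id))
  have e2 : Poly (fun p : ((α × ℕ) × ℕ) × ℕ => p.1.1.2) :=
    Poly.snd (Poly.fst (Poly.fst Poly.id))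
  have e3 : Poly (fun p : ((α × ℕ) × ℕ) × ℕ => p.1.2) := Poly.snd (Poly.fst Poly.id)
  have e4 : Poly (fun p : ((α × ℕ) × ℕ) × ℕ => p.2) := Poly.snd Poly.id
  exact poly_tmul (poly_tmul (poly_tmul (poly_tvar (poly_vw (hd.toPoly.comp e1) e2 e3 e4))
    (poly_lin0 e2)) (poly_lin e3 1)) (poly_lin e4 2)

theorem poly_gAll {q : α → List (List (List ℚ)) × ℚ} (hq : Poly q) :
    Poly (fun a => gAll (q a)) := by
  have h1 := Poly.fst hq
  have h2 := Poly.snd hq
  have hd : UPoly (fun a => (q a).1.length) := UPoly.length h1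
  have hv := poly_tvar (poly_vs hd.toPoly)
  have ht := poly_triTm hd
  exact Poly.cons (poly_fU hd 0) (Poly.cons (poly_fU hd 1) (Poly.cons (poly_fU hd 2)
    (Poly.cons (poly_eqRat hv h2)
      (Poly.cons (H612.poly_for (H612.poly_flt hv ht)
        (H612.poly_flt hv (H612.poly_tneg ht))) (poly_fEnt h1)))))

theorem poly_test {q : α → List (List (List ℚ)) × ℚ} (hq : Poly q) :
    Poly (fun a => isCubeB (q a).1 && isPosB (q a).2) := by
  have h1 := Poly.fst hq
  have h2 := Poly.snd hq
  have hd : UPoly (fun a => (q a).1.length) := UPoly.length h1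
  refine Poly.and ?_ ?_
  · refine Poly.all (p := fun a b =>
      decide (b.length = (q a).1.length) && b.all fun c => decide (c.length = (q a).1.length))
      h1 ?_
    refine Poly.and (Poly.decide_eq (Poly.length (Poly.snd Poly.id))
      (hd.toPoly.comp (Poly.fst Poly.id))) ?_
    refine Poly.all (p := fun (r : α × List (List ℚ)) b =>
      decide (b.length = (q r.1).1.length)) (Poly.snd Poly.id) ?_
    exact Poly.decide_eq (Poly.length (Poly.snd Poly.id))
      (hd.toPoly.comp (Poly.fst (Poly.fst Poly.id)))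
  · exact Poly.and (Poly.not (poly_isNeg (poly_ratNum h2)))
      (Poly.not (Poly.decide_eq (poly_natAbs (poly_ratNum h2)) (Poly.const 0)))

theorem poly_gSN : Poly gSN :=
  Poly.cond (poly_test Poly.id) (poly_conj (poly_gAll Poly.id)) (Poly.const _)

/-- The formula for the complement of the bound problem. -/
def hSN (q : List (List (List ℚ)) × ℚ) : Fm :=
  bif isCubeB q.1 && isPosB q.2 then conj (gAll q) else H612.tt

theorem poly_hSN : Poly hSN :=
  Poly.cond (poly_test Poly.id) (poly_conj (poly_gAll Poly.id)) (Poly.const _)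

theorem not_bound_iff_etr (q : List (List (List ℚ)) × ℚ) :
    ¬ SpectralNormBound q ↔ ETR (hSN q) := by
  by_cases hq : isCubeB q.1 = true ∧ isPosB q.2 = true
  · have hb : (isCubeB q.1 && isPosB q.2) = true := by rw [hq.1, hq.2]; rfl
    have h1 := (isCubeB_iff _).1 hq.1
    have h2 := (isPosB_iff _).1 hq.2
    have h3 : gSN q = hSN q := by unfold gSN hSN; rw [hb]; rfl
    rw [← h3, ← exceed_iff_etr, exceed_iff, bound_iff]
    simp [h1, h2]
  · have hb : (isCubeB q.1 && isPosB q.2) = false := by
      rw [Bool.eq_false_iff]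
      intro h
      exact hq (Bool.and_eq_true_iff.1 h)
    have h3 : hSN q = H612.tt := by unfold hSN; rw [hb]; rfl
    rw [h3]
    constructor
    · intro _
      exact ⟨fun _ => 0, H612.holds_tt _⟩
    · rintro _ ⟨h1, h2, -⟩
      exact hq ⟨(isCubeB_iff _).2 h1, (isPosB_iff _).2 h2⟩

end

theorem exceed_complete : ERComplete (lang SpectralNormExceed) :=
  ⟨ER.InER.of_poly poly_gSN exceed_iff_etr, ERHard.of_sys (poly_instU Poly.id) sat_iff_exceed⟩

theorem bound_complete : ARComplete (lang SpectralNormBound) :=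
  ⟨InAR.of_poly poly_hSN not_bound_iff_etr, ARHard.of_sys (poly_instU Poly.id) sat_iff_not_bound⟩

end Pool.Agent.NPC.TH662SN
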